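import Mathlib
import Pool.Agent.W926.PS.Stm
import Pool.Agent.W926.PS.Base

/-!
Project PS (MP_e58d4b_co): classification of six points with three labels.
-/

namespace W436.PS

open W926.PS Finset

variable {r a : ℕ}

/-- `u`, `v` are consecutive points with first difference `P` -/
structure Stp (u v : Om r a) (P : Pos r a) : Prop where
  blk : ∀ b, b < P.1 → u b = v b
  pre : ∀ c, c < P.2 → u P.1 c = v P.1 c
  fu : u P.1 P.2 = false
  fv : v P.1 P.2 = true

lemma Stp.of {u v : Om r a} {P : Pos r a} (h : FD st0 u v P) (hu : u P.1 P.2 = false)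
    (hv : v P.1 P.2 = true) : Stp u v P := by
  rw [FD0_iff] at h
  exact ⟨h.1, h.2.1, hu, hv⟩

/-- agreement at an earlier position -/
lemma Stp.at {u v : Om r a} {P Q : Pos r a} (h : Stp u v P) (hQ : nrk Q < nrk P) :
    u Q.1 Q.2 = v Q.1 Q.2 := by
  rcases nrk_lt_iff.1 hQ with h1 | ⟨h1, h2⟩
  · exact congrFun (h.blk _ h1) _
  · rw [h1]
    exact h.pre _ h2

lemma lab_eq {x z : Om r a} {P Q : Pos r a} (h : lab x P = lab z Q) :
    Q = P ∧ ∀ e, e < P.2 → x P.1 e = z P.1 e := by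
  have h1 : P = Q := congrArg Prod.fst h
  subst h1
  refine ⟨rfl, fun e he => ?_⟩
  have := congrFun (congrArg Prod.snd h) e
  simpa [lab, he] using this

lemma Coll.swap {x y z v : Om r a} {j : Fin r} {d : Fin a} (h : Coll x y z v j d) :
    Coll z v x y j d where
  xy := h.zv
  zv := h.xy
  ne := by
    obtain ⟨i, hi, hne⟩ := h.ne
    exact ⟨i, hi, fun e => hne e.symm⟩
  pre := fun e he => by
    obtain ⟨h1, h2, h3⟩ := h.pre e he
    exact ⟨h2.symm.trans h3, h2.symm, h2.symm.trans h1⟩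
  bx := h.bz
  bz := h.bx
  byy := h.bv
  bv := h.byy

/-- case II data from three steps at `P3` and the two splits -/
lemma caseII {x0 x1 x2 z0 z1 z2 : Om r a} {P1 P2 P3 : Pos r a}
    (s0 : Stp x0 z0 P3) (s1 : Stp x1 z1 P3) (s2 : Stp x2 z2 P3)
    (l1 : ∀ e, e < P3.2 → x0 P3.1 e = x1 P3.1 e) (l2 : ∀ e, e < P3.2 → x0 P3.1 e = x2 P3.1 e)
    (h12 : P1.1 = P2.1) (h12' : P1.2 < P2.2) (h23 : P2.1 < P3.1)
    (a1 : ∀ b, b < P2.1 → x0 b = x1 b) (a2 : ∀ b, b < P1.1 → x0 b = x2 b)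
    (b1 : ∀ c, c < P2.2 → x0 P2.1 c = x1 P2.1 c) (b2 : ∀ c, c < P1.2 → x0 P1.1 c = x2 P1.1 c)
    (c1 : x0 P2.1 P2.2 ≠ x1 P2.1 P2.2) (c2 : x0 P1.1 P1.2 ≠ x2 P1.1 P1.2) :
    CaseII ![x0, x1, x2] ![z0, z1, z2] P1.1 P3.1 P1.2 P2.2 P3.2 where
  ij := by rw [h12]; exact h23
  cd := h12'
  xy := by
    intro b hb g
    fin_cases g
    · exact s0.blk b hb
    · exact s1.blk b hb
    · exact s2.blk b hb
  agree := by
    intro b hb g
    fin_cases g
    · rfl
    · exact (a1 b (by rw [← h12]; exact hb)).symm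
    · exact (a2 b hb).symm
  prei := by
    intro c hc g
    fin_cases g
    · rfl
    · have := b1 c (hc.trans h12')
      rw [← h12] at this
      exact this.symm
    · exact (b2 c hc).symm
  atc := by
    constructor
    · have := b1 P1.2 h12'
      rw [← h12] at this
      exact this.symm
    · exact c2.symm
  mid := by
    intro c _ hc
    have := b1 c hc
    rw [← h12] at this
    exact this.symm
  atd := by
    rw [h12]
    exact c1.symm
  prej := by
    intro c hc g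
    fin_cases g
    · exact ⟨rfl, (s0.pre c hc).symm⟩
    · exact ⟨(l1 c hc).symm, (s1.pre c hc).symm.trans (l1 c hc).symm⟩
    · exact ⟨(l2 c hc).symm, (s2.pre c hc).symm.trans (l2 c hc).symm⟩
  ate := by
    intro g
    fin_cases g
    · exact ⟨s0.fu, s0.fv⟩
    · exact ⟨s1.fu, s1.fv⟩
    · exact ⟨s2.fu, s2.fv⟩

/-- case I data -/
lemma caseI {x0 x1 x2 z0 z1 z2 : Om r a} {P1 P2 P3 : Pos r a}
    (s0 : Stp x0 x1 P3) (s1 : Stp z0 z1 P3)
    (l : ∀ e, e < P3.2 → x0 P3.1 e = z0 P3.1 e)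
    (h12 : P1.1 < P2.1) (h23 : P2.1 = P3.1) (h23' : P2.2 < P3.2)
    (xb : ∀ b, b < P2.1 → x0 b = x2 b) (zb : ∀ b, b < P2.1 → z0 b = z2 b)
    (xc : ∀ c, c < P2.2 → x0 P2.1 c = x2 P2.1 c) (zc : ∀ c, c < P2.2 → z0 P2.1 c = z2 P2.1 c)
    (xd : x0 P2.1 P2.2 ≠ x2 P2.1 P2.2) (zd : z0 P2.1 P2.2 ≠ z2 P2.1 P2.2)
    (ag : ∀ b, b < P1.1 → x0 b = z0 b) (df : x0 P1.1 ≠ z0 P1.1) :
    CaseI ![x0, x1, x2] ![z0, z1, z2] P1.1 P3.1 P2.2 P3.2 where
  ij := by rw [← h23]; exact h12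
  de := h23'
  xx := by
    intro b hb g
    fin_cases g
    · rfl
    · exact (s0.blk b hb).symm
    · exact (xb b (by rw [h23]; exact hb)).symm
  zz := by
    intro b hb g
    fin_cases g
    · rfl
    · exact (s1.blk b hb).symm
    · exact (zb b (by rw [h23]; exact hb)).symm
  agree := ag
  differ := df
  pre := by
    intro c hc g
    have h1 := l c (hc.trans h23')
    have h2 := xc c hc
    have h3 := zc c hc
    rw [h23] at h2 h3
    fin_cases g
    · exact ⟨rfl, h1.symm⟩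
    · exact ⟨(s0.pre c (hc.trans h23')).symm, (s1.pre c (hc.trans h23')).symm.trans h1.symm⟩
    · exact ⟨h2.symm, h3.symm.trans h1.symm⟩
  atd := by
    have h1 := l P2.2 h23'
    have h2 := s0.pre P2.2 h23'
    have h3 := s1.pre P2.2 h23'
    rw [h23] at xd zd
    refine ⟨h2.symm, h1.symm, h3.symm.trans h1.symm, xd.symm, ?_⟩
    show z2 P3.1 P2.2 ≠ x0 P3.1 P2.2
    rw [h1]
    exact zd.symm
  mid := by
    intro c _ hc
    have h1 := l c hc
    exact ⟨(s0.pre c hc).symm, h1.symm, (s1.pre c hc).symm.trans h1.symm⟩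
  ate := ⟨s0.fu, s1.fu, s0.fv, s1.fv⟩

/-- the assertion of the classification -/
def Concl (y : Fin 6 → Om r a) (p : Fin 5 → Pos r a) : Prop :=
  (∃ i k i' k' : Fin 5,
    Coll (y i.castSucc) (y i.succ) (y k.castSucc) (y k.succ) (p i).1 (p i).2 ∧
    Coll (y i'.castSucc) (y i'.succ) (y k'.castSucc) (y k'.succ) (p i').1 (p i').2 ∧
    (p i).1 < (p i').1) ∨
  (∃ (i k l : Fin 5) (b : Fin r),
    Coll (y i.castSucc) (y i.succ) (y k.castSucc) (y k.succ) (p i).1 (p i).2 ∧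
    Coll (y i.castSucc) (y i.succ) (y l.castSucc) (y l.succ) (p i).1 (p i).2 ∧
    b < (p i).1 ∧ y i.castSucc b = y k.castSucc b ∧ y i.castSucc b ≠ y l.castSucc b) ∨
  (∃ (σ : Equiv.Perm (Fin 6)) (X Z : Fin 3 → Om r a) (i j : Fin r) (d e : Fin a),
    six X Z = (fun h => y (σ h)) ∧ CaseI X Z i j d e) ∨
  (∃ (σ : Equiv.Perm (Fin 6)) (X Y : Fin 3 → Om r a) (i j : Fin r) (c d e : Fin a),
    six X Y = (fun h => y (σ h)) ∧ CaseII X Y i j c d e)

section cases

variable {y : Fin 6 → Om r a} {p : Fin 5 → Pos r a}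

lemma concl1 (i k i' k' : Fin 5)
    (h1 : Coll (y i.castSucc) (y i.succ) (y k.castSucc) (y k.succ) (p i).1 (p i).2)
    (h2 : Coll (y i'.castSucc) (y i'.succ) (y k'.castSucc) (y k'.succ) (p i').1 (p i').2)
    (h3 : (p i).1 < (p i').1) : Concl y p :=
  Or.inl ⟨i, k, i', k', h1, h2, h3⟩

lemma concl3 (s : Fin 6 → Fin 6) (hs : Function.Bijective s) {x0 x1 x2 z0 z1 z2 : Om r a}
    {i j : Fin r} {d e : Fin a}
    (h : ![x0, x1, x2, z0, z1, z2] = fun h => y (s h))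
    (hc : CaseI ![x0, x1, x2] ![z0, z1, z2] i j d e) : Concl y p :=
  Or.inr (Or.inr (Or.inl ⟨Equiv.ofBijective s hs, ![x0, x1, x2], ![z0, z1, z2], i, j, d, e, h, hc⟩))

lemma concl4 (s : Fin 6 → Fin 6) (hs : Function.Bijective s) {x0 x1 x2 z0 z1 z2 : Om r a}
    {i j : Fin r} {c d e : Fin a}
    (h : ![x0, x1, x2, z0, z1, z2] = fun h => y (s h))
    (hc : CaseII ![x0, x1, x2] ![z0, z1, z2] i j c d e) : Concl y p :=
  Or.inr (Or.inr (Or.inr ⟨Equiv.ofBijective s hs, ![x0, x1, x2], ![z0, z1, z2], i, j, c, d, e, h, hc⟩))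

variable (hs : ∀ i : Fin 5, Stp (y i.castSucc) (y i.succ) (p i))
  (hL : ∀ i k : Fin 5, nrk (p i) = nrk (p k) → p k = p i ∧
    ∀ e, e < (p i).2 → y i.castSucc (p i).1 e = y k.castSucc (p i).1 e)
  (hC : ∀ i k : Fin 5, i < k → nrk (p i) = nrk (p k) →
    Coll (y i.castSucc) (y i.succ) (y k.castSucc) (y k.succ) (p i).1 (p i).2)

include hs hL hC

/-- 3 2 3 1 3 -/
lemma caseA (e2 : nrk (p 0) = nrk (p 2)) (e4 : nrk (p 0) = nrk (p 4))
    (h12 : nrk (p 3) < nrk (p 1)) (h23 : nrk (p 1) < nrk (p 0)) : Concl y p := by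
  have s0 : Stp (y 0) (y 1) (p 0) := hs 0
  have s1 : Stp (y 1) (y 2) (p 1) := hs 1
  have s2 : Stp (y 2) (y 3) (p 0) := (hL 0 2 e2).1 ▸ hs 2
  have s3 : Stp (y 3) (y 4) (p 3) := hs 3
  have s4 : Stp (y 4) (y 5) (p 0) := (hL 0 4 e4).1 ▸ hs 4
  have l2 : ∀ e, e < (p 0).2 → y 0 (p 0).1 e = y 2 (p 0).1 e := (hL 0 2 e2).2
  have l4 : ∀ e, e < (p 0).2 → y 0 (p 0).1 e = y 4 (p 0).1 e := (hL 0 4 e4).2
  have h01 : y 0 (p 1).1 (p 1).2 = false := (s0.at h23).trans s1.fu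
  have j23 : (p 1).1 < (p 0).1 := by
    rcases nrk_lt_iff.1 h23 with h | ⟨h, h'⟩
    · exact h
    · exfalso
      have := l2 _ h'
      rw [← h, h01, s1.fv] at this
      exact absurd this (by decide)
  rcases nrk_lt_iff.1 h12 with h | ⟨h, h'⟩
  · have q1 : y 0 (p 3).1 = y 2 (p 3).1 := (s0.blk _ (h.trans j23)).trans (s1.blk _ h)
    refine Or.inr (Or.inl ⟨0, 2, 4, (p 3).1, hC 0 2 (by decide) e2, hC 0 4 (by decide) e4,
      h.trans j23, q1, ?_⟩)
    intro hh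
    have q2 : y 0 (p 3).1 = y 4 (p 3).1 := hh
    have q3 : y 2 (p 3).1 = y 3 (p 3).1 := s2.blk _ (h.trans j23)
    have := congrFun (q3.symm.trans (q1.symm.trans q2)) (p 3).2
    rw [s3.fu, s3.fv] at this
    exact absurd this (by decide)
  · refine concl4 ![0, 2, 4, 1, 3, 5] (by decide) (x0 := y 0) (x1 := y 2) (x2 := y 4)
      (z0 := y 1) (z1 := y 3) (z2 := y 5) ?_
      (caseII (P1 := p 3) (P2 := p 1) (P3 := p 0) s0 s2 s4 l2 l4 h h' j23 ?_ ?_ ?_ ?_ ?_ ?_)
    · funext g; fin_cases g <;> rfl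
    · intro b hb
      exact (s0.blk _ (hb.trans j23)).trans (s1.blk _ hb)
    · intro b hb
      have hb1 : b < (p 1).1 := by rw [← h]; exact hb
      exact ((s0.blk _ (hb1.trans j23)).trans (s1.blk _ hb1)).trans
        ((s2.blk _ (hb1.trans j23)).trans (s3.blk _ hb))
    · intro c hc
      rw [s0.blk _ j23]
      exact s1.pre _ hc
    · intro c hc
      have j13 : (p 3).1 < (p 0).1 := by rw [h]; exact j23
      rw [s0.blk _ j13, ← s3.pre _ hc, ← s2.blk _ j13, h]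
      exact s1.pre _ (hc.trans h')
    · rw [h01, s1.fv]
      decide
    · have j13 : (p 3).1 < (p 0).1 := by rw [h]; exact j23
      rw [s0.blk _ j13, s3.fv]
      have : y 1 (p 3).1 (p 3).2 = y 2 (p 3).1 (p 3).2 := by
        rw [h]; exact s1.pre _ h'
      rw [this, s2.blk _ j13, s3.fu]
      decide

/-- 3 1 3 2 3 -/
lemma caseB (e2 : nrk (p 2) = nrk (p 0)) (e4 : nrk (p 2) = nrk (p 4))
    (h12 : nrk (p 1) < nrk (p 3)) (h23 : nrk (p 3) < nrk (p 2)) : Concl y p := by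
  have s0 : Stp (y 0) (y 1) (p 2) := (hL 2 0 e2).1 ▸ hs 0
  have s1 : Stp (y 1) (y 2) (p 1) := hs 1
  have s2 : Stp (y 2) (y 3) (p 2) := hs 2
  have s3 : Stp (y 3) (y 4) (p 3) := hs 3
  have s4 : Stp (y 4) (y 5) (p 2) := (hL 2 4 e4).1 ▸ hs 4
  have l2 : ∀ e, e < (p 2).2 → y 2 (p 2).1 e = y 0 (p 2).1 e := (hL 2 0 e2).2
  have l4 : ∀ e, e < (p 2).2 → y 2 (p 2).1 e = y 4 (p 2).1 e := (hL 2 4 e4).2
  have h01 : y 2 (p 3).1 (p 3).2 = false := (s2.at h23).trans s3.fu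
  have j23 : (p 3).1 < (p 2).1 := by
    rcases nrk_lt_iff.1 h23 with h | ⟨h, h'⟩
    · exact h
    · exfalso
      have := l4 _ h'
      rw [← h, h01, s3.fv] at this
      exact absurd this (by decide)
  rcases nrk_lt_iff.1 h12 with h | ⟨h, h'⟩
  · have q1 : y 2 (p 1).1 = y 4 (p 1).1 := (s2.blk _ (h.trans j23)).trans (s3.blk _ h)
    have c20 : Coll (y 2) (y 3) (y 0) (y 1) (p 2).1 (p 2).2 := by
      have := Coll.swap (hC 0 2 (by decide) e2.symm)
      rw [← (hL 2 0 e2).1]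
      exact this
    refine Or.inr (Or.inl ⟨2, 4, 0, (p 1).1, hC 2 4 (by decide) e4, c20,
      h.trans j23, q1, ?_⟩)
    intro hh
    have q2 : y 2 (p 1).1 = y 0 (p 1).1 := hh
    have q3 : y 0 (p 1).1 = y 1 (p 1).1 := s0.blk _ (h.trans j23)
    have := congrFun (q2.trans q3) (p 1).2
    rw [s1.fu, s1.fv] at this
    exact absurd this (by decide)
  · have j13 : (p 1).1 < (p 2).1 := by rw [h]; exact j23
    refine concl4 ![2, 4, 0, 3, 5, 1] (by decide) (x0 := y 2) (x1 := y 4) (x2 := y 0)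
      (z0 := y 3) (z1 := y 5) (z2 := y 1) ?_
      (caseII (P1 := p 1) (P2 := p 3) (P3 := p 2) s2 s4 s0 l4 l2 h h' j23 ?_ ?_ ?_ ?_ ?_ ?_)
    · funext g; fin_cases g <;> rfl
    · intro b hb
      exact (s2.blk _ (hb.trans j23)).trans (s3.blk _ hb)
    · intro b hb
      exact ((s0.blk _ (hb.trans j13)).trans (s1.blk _ hb)).symm
    · intro c hc
      rw [s2.blk _ j23]
      exact s3.pre _ hc
    · intro c hc
      rw [s0.blk _ j13]
      exact (s1.pre _ hc).symm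
    · rw [h01, s3.fv]
      decide
    · rw [s0.blk _ j13, s1.fv, s1.fu]
      decide

/-- 3 2 3 1 2 -/
lemma caseC (e2 : nrk (p 0) = nrk (p 2)) (e4 : nrk (p 1) = nrk (p 4))
    (h23 : nrk (p 1) < nrk (p 0)) : Concl y p := by
  have s0 : Stp (y 0) (y 1) (p 0) := hs 0
  have s1 : Stp (y 1) (y 2) (p 1) := hs 1
  have l2 : ∀ e, e < (p 0).2 → y 0 (p 0).1 e = y 2 (p 0).1 e := (hL 0 2 e2).2
  have h01 : y 0 (p 1).1 (p 1).2 = false := (s0.at h23).trans s1.fu
  rcases nrk_lt_iff.1 h23 with h | ⟨h, h'⟩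
  · exact concl1 1 4 0 2 (hC 1 4 (by decide) e4) (hC 0 2 (by decide) e2) h
  · exfalso
    have := l2 _ h'
    rw [← h, h01, s1.fv] at this
    exact absurd this (by decide)

/-- 2 1 3 2 3 -/
lemma caseD (e2 : nrk (p 2) = nrk (p 4)) (e4 : nrk (p 0) = nrk (p 3))
    (h23 : nrk (p 3) < nrk (p 2)) : Concl y p := by
  have s2 : Stp (y 2) (y 3) (p 2) := hs 2
  have s3 : Stp (y 3) (y 4) (p 3) := hs 3
  have l2 : ∀ e, e < (p 2).2 → y 2 (p 2).1 e = y 4 (p 2).1 e := (hL 2 4 e2).2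
  have h01 : y 2 (p 3).1 (p 3).2 = false := (s2.at h23).trans s3.fu
  rcases nrk_lt_iff.1 h23 with h | ⟨h, h'⟩
  · refine concl1 0 3 2 4 (hC 0 3 (by decide) e4) (hC 2 4 (by decide) e2) ?_
    rw [← (hL 0 3 e4).1]
    exact h
  · exfalso
    have := l2 _ h'
    rw [← h, h01, s3.fv] at this
    exact absurd this (by decide)

/-- 3 2 1 3 2 -/
lemma caseE1 (e2 : nrk (p 0) = nrk (p 3)) (e4 : nrk (p 1) = nrk (p 4))
    (h12 : nrk (p 2) < nrk (p 1)) (h23 : nrk (p 1) < nrk (p 0)) : Concl y p := by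
  have s0 : Stp (y 0) (y 1) (p 0) := hs 0
  have s1 : Stp (y 1) (y 2) (p 1) := hs 1
  have s2 : Stp (y 2) (y 3) (p 2) := hs 2
  have s3 : Stp (y 3) (y 4) (p 0) := (hL 0 3 e2).1 ▸ hs 3
  have s4 : Stp (y 4) (y 5) (p 1) := (hL 1 4 e4).1 ▸ hs 4
  have l3 : ∀ e, e < (p 0).2 → y 0 (p 0).1 e = y 3 (p 0).1 e := (hL 0 3 e2).2
  rcases nrk_lt_iff.1 h23 with h | ⟨h, h'⟩
  · exact concl1 1 4 0 3 (hC 1 4 (by decide) e4) (hC 0 3 (by decide) e2) h
  · have j12 : (p 2).1 < (p 1).1 := by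
      rcases nrk_lt_iff.1 h12 with g | ⟨g, g'⟩
      · exact g
      · exfalso
        obtain ⟨b, hb, hne⟩ := (hC 1 4 (by decide) e4).ne
        apply hne
        have hb' : b < (p 1).1 := hb
        have hb2 : b < (p 2).1 := by rw [g]; exact hb
        have hb0 : b < (p 0).1 := by rw [← h]; exact hb
        exact (s1.blk b hb').trans ((s2.blk b hb2).trans (s3.blk b hb0))
    have j13 : (p 2).1 < (p 0).1 := by rw [← h]; exact j12
    refine concl3 ![0, 1, 2, 3, 4, 5] (by decide) (x0 := y 0) (x1 := y 1) (x2 := y 2)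
      (z0 := y 3) (z1 := y 4) (z2 := y 5) ?_
      (caseI (P1 := p 2) (P2 := p 1) (P3 := p 0) s0 s3 l3 j12 h h' ?_ ?_ ?_ ?_ ?_ ?_ ?_ ?_)
    · funext g; fin_cases g <;> rfl
    · intro b hb
      exact (s0.blk _ (by rw [← h]; exact hb)).trans (s1.blk _ hb)
    · intro b hb
      exact (s3.blk _ (by rw [← h]; exact hb)).trans (s4.blk _ hb)
    · intro c hc
      have := s0.pre c (hc.trans h')
      rw [← h] at this
      exact this.trans (s1.pre _ hc)
    · intro c hc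
      have := s3.pre c (hc.trans h')
      rw [← h] at this
      exact this.trans (s4.pre _ hc)
    · rw [s0.at h23, s1.fu, s1.fv]
      decide
    · rw [s3.at h23, s4.fu, s4.fv]
      decide
    · intro b hb
      exact ((s0.blk _ (hb.trans j13)).trans (s1.blk _ (hb.trans j12))).trans (s2.blk _ hb)
    · intro hh
      have := (s0.blk _ j13).trans (s1.blk _ j12)
      rw [this] at hh
      have := congrFun hh (p 2).2
      rw [s2.fu, s2.fv] at this
      exact absurd this (by decide)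

/-- 3 2 1 2 3 -/
lemma caseE2 (e2 : nrk (p 0) = nrk (p 4)) (e4 : nrk (p 1) = nrk (p 3))
    (h23 : nrk (p 1) < nrk (p 0)) : Concl y p := by
  have s0 : Stp (y 0) (y 1) (p 0) := hs 0
  have s1 : Stp (y 1) (y 2) (p 1) := hs 1
  have s3 : Stp (y 3) (y 4) (p 1) := (hL 1 3 e4).1 ▸ hs 3
  have l2 : ∀ e, e < (p 0).2 → y 0 (p 0).1 e = y 4 (p 0).1 e := (hL 0 4 e2).2
  have h01 : y 0 (p 1).1 (p 1).2 = false := (s0.at h23).trans s1.fu
  rcases nrk_lt_iff.1 h23 with h | ⟨h, h'⟩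
  · exact concl1 1 3 0 4 (hC 1 3 (by decide) e4) (hC 0 4 (by decide) e2) h
  · exfalso
    have := l2 _ h'
    rw [← h, h01, s3.fv] at this
    exact absurd this (by decide)

/-- 2 3 1 3 2 -/
lemma caseE3 (e2 : nrk (p 1) = nrk (p 3)) (e4 : nrk (p 0) = nrk (p 4))
    (h23 : nrk (p 0) < nrk (p 1)) : Concl y p := by
  have s0 : Stp (y 0) (y 1) (p 0) := hs 0
  have s3 : Stp (y 3) (y 4) (p 1) := (hL 1 3 e2).1 ▸ hs 3
  have s4 : Stp (y 4) (y 5) (p 0) := (hL 0 4 e4).1 ▸ hs 4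
  have l2 : ∀ e, e < (p 1).2 → y 1 (p 1).1 e = y 3 (p 1).1 e := (hL 1 3 e2).2
  have h01 : y 3 (p 0).1 (p 0).2 = false := (s3.at h23).trans s4.fu
  rcases nrk_lt_iff.1 h23 with h | ⟨h, h'⟩
  · exact concl1 0 4 1 3 (hC 0 4 (by decide) e4) (hC 1 3 (by decide) e2) h
  · exfalso
    have := l2 _ h'
    rw [← h, h01, s0.fv] at this
    exact absurd this (by decide)

/-- 2 3 1 2 3 -/
lemma caseE4 (e2 : nrk (p 1) = nrk (p 4)) (e4 : nrk (p 0) = nrk (p 3))
    (h12 : nrk (p 2) < nrk (p 0)) (h23 : nrk (p 0) < nrk (p 1)) : Concl y p := by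
  have s0 : Stp (y 0) (y 1) (p 0) := hs 0
  have s1 : Stp (y 1) (y 2) (p 1) := hs 1
  have s2 : Stp (y 2) (y 3) (p 2) := hs 2
  have s3 : Stp (y 3) (y 4) (p 0) := (hL 0 3 e4).1 ▸ hs 3
  have s4 : Stp (y 4) (y 5) (p 1) := (hL 1 4 e2).1 ▸ hs 4
  have l4 : ∀ e, e < (p 1).2 → y 1 (p 1).1 e = y 4 (p 1).1 e := (hL 1 4 e2).2
  rcases nrk_lt_iff.1 h23 with h | ⟨h, h'⟩
  · exact concl1 0 3 1 4 (hC 0 3 (by decide) e4) (hC 1 4 (by decide) e2) h
  · have j12 : (p 2).1 < (p 0).1 := by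
      rcases nrk_lt_iff.1 h12 with g | ⟨g, g'⟩
      · exact g
      · exfalso
        obtain ⟨b, hb, hne⟩ := (hC 0 3 (by decide) e4).ne
        apply hne
        have hb' : b < (p 0).1 := hb
        have hb2 : b < (p 2).1 := by rw [g]; exact hb
        have hb1 : b < (p 1).1 := by rw [← h]; exact hb
        exact (s0.blk b hb').trans ((s1.blk b hb1).trans (s2.blk b hb2))
    have j13 : (p 2).1 < (p 1).1 := by rw [← h]; exact j12
    refine concl3 ![1, 2, 0, 4, 5, 3] (by decide) (x0 := y 1) (x1 := y 2) (x2 := y 0)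
      (z0 := y 4) (z1 := y 5) (z2 := y 3) ?_
      (caseI (P1 := p 2) (P2 := p 0) (P3 := p 1) s1 s4 l4 j12 h h' ?_ ?_ ?_ ?_ ?_ ?_ ?_ ?_)
    · funext g; fin_cases g <;> rfl
    · intro b hb
      exact (s0.blk _ hb).symm
    · intro b hb
      exact (s3.blk _ hb).symm
    · intro c hc
      exact (s0.pre _ hc).symm
    · intro c hc
      exact (s3.pre _ hc).symm
    · rw [s0.fu, s0.fv]
      decide
    · rw [s3.fu, s3.fv]
      decide
    · intro b hb
      exact ((s1.blk _ (hb.trans j13)).trans (s2.blk _ hb)).trans (s3.blk _ (hb.trans j12))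
    · intro hh
      rw [s1.blk _ j13, ← s3.blk _ j12] at hh
      have := congrFun hh (p 2).2
      rw [s2.fu, s2.fv] at this
      exact absurd this (by decide)

end cases

theorem cls : S_SEQ → S_UMIN → S_COL → S_CLS := by
  intro hSEQ hUMIN hCOL r a y p hy hcard
  have hs : ∀ i : Fin 5, Stp (y i.castSucc) (y i.succ) (p i) := fun i =>
    Stp.of (hy i).1 (hy i).2.1 (hy i).2.2
  obtain ⟨hc3, hseq⟩ := hSEQ (fun i => nrk (p i)) (fun i k hik hp =>
    hUMIN r a y p hy i k hik (nrk_inj hp))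
  set L : Finset (Lab r a) := univ.image (fun i : Fin 5 => lab (y i.castSucc) (p i)) with hLdef
  have himg : univ.image (fun i : Fin 5 => nrk (p i)) = L.image (fun s => nrk s.1) := by
    rw [hLdef, Finset.image_image]
    rfl
  have hle : (L.image (fun s => nrk s.1)).card ≤ L.card := Finset.card_image_le
  have hc : (univ.image (fun i : Fin 5 => nrk (p i))).card = 3 := by
    rw [himg] at hc3 ⊢
    omega
  have hinj : Set.InjOn (fun s : Lab r a => nrk s.1) (L : Set (Lab r a)) := by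
    rw [← Finset.card_image_iff]
    rw [himg] at hc3
    omega
  have hmem : ∀ i : Fin 5, lab (y i.castSucc) (p i) ∈ (L : Set (Lab r a)) := by
    intro i
    rw [hLdef]
    exact Finset.mem_coe.2 (Finset.mem_image_of_mem (fun i : Fin 5 => lab (y i.castSucc) (p i))
      (Finset.mem_univ i))
  have hlab : ∀ i k : Fin 5, nrk (p i) = nrk (p k) →
      lab (y i.castSucc) (p i) = lab (y k.castSucc) (p k) := by
    intro i k h
    exact hinj (hmem i) (hmem k) h
  have hL : ∀ i k : Fin 5, nrk (p i) = nrk (p k) → p k = p i ∧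
      ∀ e, e < (p i).2 → y i.castSucc (p i).1 e = y k.castSucc (p i).1 e :=
    fun i k h => lab_eq (hlab i k h)
  have hC : ∀ i k : Fin 5, i < k → nrk (p i) = nrk (p k) →
      Coll (y i.castSucc) (y i.succ) (y k.castSucc) (y k.succ) (p i).1 (p i).2 :=
    fun i k hik h => hCOL r a y p hy i k hik (hlab i k h)
  obtain ⟨d, d01, d12, hd⟩ := hseq hc
  show Concl y p
  rcases hd with hd | hd | hd | hd | hd | hd | hd | hd
  all_goals
    have q0 := congrFun hd 0
    have q1 := congrFun hd 1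
    have q2 := congrFun hd 2
    have q3 := congrFun hd 3
    have q4 := congrFun hd 4
    simp only [Matrix.cons_val] at q0 q1 q2 q3 q4
  · exact caseA hs hL hC (by omega) (by omega) (by omega) (by omega)
  · exact caseB hs hL hC (by omega) (by omega) (by omega) (by omega)
  · exact caseC hs hL hC (by omega) (by omega) (by omega)
  · exact caseD hs hL hC (by omega) (by omega) (by omega)
  · exact caseE1 hs hL hC (by omega) (by omega) (by omega) (by omega)
  · exact caseE2 hs hL hC (by omega) (by omega) (by omega)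
  · exact caseE3 hs hL hC (by omega) (by omega) (by omega)
  · exact caseE4 hs hL hC (by omega) (by omega) (by omega) (by omega)

end W436.PS
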